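import Mathlib

set_option autoImplicit false

namespace Pool.Agent.H397HA

/-- coordinate vectors -/
abbrev W (k : ℕ) := Fin (k+1) → ZMod 3
/-- points -/
abbrev V (k : ℕ) := W k × W k

variable {k : ℕ}

/-- `q` is supported on the edge `{j, j+1}` -/
def InT (j : Fin (k+1)) (q : W k) : Prop := ∀ i, i ≠ j → i ≠ j + 1 → q i = 0

theorem InT.zero (j : Fin (k+1)) : InT j (0 : W k) := fun _ _ _ => rfl
theorem InT.neg {j : Fin (k+1)} {q : W k} (h : InT j q) : InT j (-q) := fun i h1 h2 => by
  simp [h i h1 h2]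
theorem InT.add {j : Fin (k+1)} {q q' : W k} (h : InT j q) (h' : InT j q') : InT j (q + q') :=
  fun i h1 h2 => by simp [h i h1 h2, h' i h1 h2]
theorem InT.neg_iff {j : Fin (k+1)} {q : W k} : InT j (-q) ↔ InT j q :=
  ⟨fun h => by simpa using h.neg, fun h => h.neg⟩

open Classical in
/-- gauge sign with cut at the edge `c` -/
noncomputable def s (c : Fin (k+1)) (q : W k) : ZMod 3 :=
  if q ≠ 0 ∧ ∀ i, c < i → q i = 0 then -1 else 1

theorem s_or (c : Fin (k+1)) (q : W k) : s c q = 1 ∨ s c q = -1 := by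
  unfold s; split_ifs <;> simp

theorem s_mul_self (c : Fin (k+1)) (q : W k) : s c q * s c q = 1 := by
  rcases s_or c q with h | h <;> simp [h]

@[simp] theorem s_neg (c : Fin (k+1)) (q : W k) : s c (-q) = s c q := by
  unfold s; congr 1; simp

@[simp] theorem s_zero (c : Fin (k+1)) : s c (0 : W k) = 1 := by
  unfold s; simp

/-- the local addition, in the gauge with cut at `c` -/
noncomputable def op (c : Fin (k+1)) (x y : V k) : V k :=
  (s c (x.2 + y.2) • (s c x.2 • x.1 + s c y.2 • y.1), x.2 + y.2)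

@[simp] theorem op_snd (c : Fin (k+1)) (x y : V k) : (op c x y).2 = x.2 + y.2 := rfl

theorem op_fst (c : Fin (k+1)) (x y : V k) :
    (op c x y).1 = s c (x.2 + y.2) • (s c x.2 • x.1 + s c y.2 • y.1) := rfl

theorem s_const {c l : Fin (k+1)} (hl : l ≠ Fin.last k) (hc : c ≠ l) :
    ∃ σ : ZMod 3, (σ = 1 ∨ σ = -1) ∧ ∀ q : W k, InT l q → q ≠ 0 → s c q = σ := by
  have hlv : l.val < k := by
    have := l.isLt
    have h2 : l.val ≠ k := fun h => hl (Fin.ext h)
    omega
  have hl1 : (l + 1 : Fin (k+1)).val = l.val + 1 := by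
    rw [Fin.val_add_one_of_lt]
    exact Fin.lt_last_iff_ne_last.mpr hl
  rcases lt_or_gt_of_ne hc with h | h
  · -- c < l
    refine ⟨1, Or.inl rfl, fun q hq hq0 => ?_⟩
    unfold s
    rw [if_neg]
    rintro ⟨-, h2⟩
    apply hq0
    funext i
    by_cases h3 : i = l
    · subst h3; exact h2 _ h
    · by_cases h4 : i = l + 1
      · apply h2; rw [h4, Fin.lt_def, hl1]; have := Fin.lt_def.mp h; omega
      · exact hq i h3 h4
  · refine ⟨-1, Or.inr rfl, fun q hq hq0 => ?_⟩
    unfold s
    rw [if_pos]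
    refine ⟨hq0, fun i hi => hq i ?_ ?_⟩
    · rintro rfl; exact absurd (lt_trans h hi) (lt_irrefl _)
    · rintro rfl
      have h1 := Fin.lt_def.mp h
      have h2 := Fin.lt_def.mp hi
      rw [hl1] at h2; omega

theorem s_last {c : Fin (k+1)} (hc : c ≠ Fin.last k) {q : W k} (hq : InT (Fin.last k) q)
    (hq0 : q ≠ 0) : s c q = if q (Fin.last k) = 0 then -1 else 1 := by
  have hlast : (Fin.last k + 1 : Fin (k+1)) = 0 := Fin.last_add_one k
  unfold s
  split_ifs with h1 h2 h2
  · rfl
  · exact absurd (h1.2 _ (Fin.lt_last_iff_ne_last.mpr hc)) h2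
  · exfalso
    apply h1
    refine ⟨hq0, fun i hi => ?_⟩
    by_cases h3 : i = Fin.last k
    · rw [h3]; exact h2
    · apply hq i h3
      rw [hlast]
      rintro rfl
      exact absurd hi (Fin.not_lt_zero c)
  · rfl

theorem ratio (hk : 2 ≤ k) {c l c1 j : Fin (k+1)} (hcl : c ≠ l) (hcj : c1 ≠ j) :
    ∃ η : ZMod 3, (η = 1 ∨ η = -1) ∧
      ∀ q : W k, InT l q → InT j q → q ≠ 0 → s c q = η * s c1 q := by
  have hlast : (Fin.last k + 1 : Fin (k+1)) = 0 := Fin.last_add_one k
  -- the mixed case
  have mixed : ∀ {c c1 j : Fin (k+1)}, c ≠ Fin.last k → c1 ≠ j → j ≠ Fin.last k →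
      ∃ η : ZMod 3, (η = 1 ∨ η = -1) ∧
      ∀ q : W k, InT (Fin.last k) q → InT j q → q ≠ 0 → s c q = η * s c1 q := by
    intro c c1 j hc hcj hj
    obtain ⟨σ, hσ, hσ'⟩ := s_const hj hcj
    have hjv : j.val < k := by
      have := j.isLt
      have h2 : j.val ≠ k := fun h => hj (Fin.ext h)
      omega
    have hj1 : (j + 1 : Fin (k+1)).val = j.val + 1 := by
      rw [Fin.val_add_one_of_lt]
      exact Fin.lt_last_iff_ne_last.mpr hj
    by_cases h : j + 1 = Fin.last k
    · refine ⟨σ, hσ, fun q h1 h2 h3 => ?_⟩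
      rw [s_last hc h1 h3, hσ' q h2 h3]
      have hjk : j.val + 1 = k := by rw [← hj1, h]; rfl
      have h4 : q 0 = 0 := by
        apply h2
        · intro h0; rw [← h0] at hjk; simp at hjk; omega
        · intro h0; rw [h] at h0; have := congrArg Fin.val h0; simp at this; omega
      have h5 : q (Fin.last k) ≠ 0 := by
        intro h5
        apply h3
        funext i
        by_cases h6 : i = Fin.last k
        · rw [h6]; exact h5
        · by_cases h7 : i = 0
          · rw [h7]; exact h4
          · exact h1 i h6 (by rw [hlast]; exact h7)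
      rw [if_neg h5]
      rcases hσ with h | h <;> simp [h]
    · refine ⟨-σ, by rcases hσ with h | h <;> simp [h], fun q h1 h2 h3 => ?_⟩
      rw [s_last hc h1 h3, hσ' q h2 h3]
      have h5 : q (Fin.last k) = 0 := h2 _ (fun h0 => hj h0.symm) (fun h0 => h h0.symm)
      rw [if_pos h5]
      rcases hσ with h | h <;> simp [h]
  by_cases h1 : l = Fin.last k
  · by_cases h2 : j = Fin.last k
    · refine ⟨1, Or.inl rfl, fun q h3 h4 h5 => ?_⟩
      subst h1; subst h2
      rw [s_last hcl h3 h5, s_last hcj h3 h5, one_mul]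
    · subst h1; exact mixed hcl hcj h2
  · by_cases h2 : j = Fin.last k
    · subst h2
      obtain ⟨η, hη, h⟩ := mixed hcj hcl h1
      refine ⟨η, hη, fun q h3 h4 h5 => ?_⟩
      rw [h q h4 h3 h5]
      rcases hη with h | h <;> simp [h]
    · obtain ⟨σ, hσ, hσ'⟩ := s_const h1 hcl
      obtain ⟨τ, hτ, hτ'⟩ := s_const h2 hcj
      refine ⟨σ * τ, by rcases hσ with h | h <;> rcases hτ with h' | h' <;> simp [h, h'],
        fun q h3 h4 h5 => ?_⟩
      rw [hσ' q h3 h5, hτ' q h4 h5]
      rcases hτ with h' | h' <;> simp [h']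

theorem op_switch {c c1 : Fin (k+1)} {p p' : V k} {η : ZMod 3} (hη : η = 1 ∨ η = -1)
    (h : ∀ q, (q = p.2 ∨ q = p'.2 ∨ q = p.2 + p'.2) → q ≠ 0 → s c q = η * s c1 q) :
    op c p p' = op c1 p p' ∨ op c p p' = op c1 (-p) p' ∨ op c p p' = op c1 p (-p') ∨
      op c p p' = -op c1 p p' := by
  obtain ⟨u, q⟩ := p
  obtain ⟨u', q'⟩ := p'
  simp only at h
  rcases hη with rfl | rfl
  · left
    have e : ∀ r, (r = q ∨ r = q' ∨ r = q + q') → s c r = s c1 r := by
      intro r hr
      by_cases h0 : r = 0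
      · subst h0; simp
      · rw [h r hr h0, one_mul]
    simp [op, e q (Or.inl rfl), e q' (Or.inr (Or.inl rfl)), e (q+q') (Or.inr (Or.inr rfl))]
  · by_cases h1 : q = 0
    · subst h1
      by_cases h2 : q' = 0
      · subst h2; left; simp [op]
      · right; left
        have e := h q' (Or.inr (Or.inl rfl)) h2
        simp only [op, Prod.neg_mk, Prod.mk.injEq, zero_add, s_zero, neg_zero, e, one_smul]
        refine ⟨?_, trivial⟩
        funext i
        simp only [Pi.smul_apply, Pi.add_apply, Pi.neg_apply, smul_eq_mul]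
        ring
    · by_cases h2 : q' = 0
      · subst h2
        right; right; left
        have e := h q (Or.inl rfl) h1
        simp only [op, Prod.neg_mk, Prod.mk.injEq, add_zero, s_zero, neg_zero, e, one_smul]
        refine ⟨?_, trivial⟩
        funext i
        simp only [Pi.smul_apply, Pi.add_apply, Pi.neg_apply, smul_eq_mul]
        ring
      · have e := h q (Or.inl rfl) h1
        have e' := h q' (Or.inr (Or.inl rfl)) h2
        by_cases h3 : q + q' = 0
        · right; right; right
          simp only [op, Prod.neg_mk, Prod.mk.injEq, h3, e, e', s_zero, neg_zero, one_smul]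
          refine ⟨?_, trivial⟩
          funext i
          simp only [Pi.smul_apply, Pi.add_apply, Pi.neg_apply, smul_eq_mul]
          ring
        · left
          have e'' := h (q + q') (Or.inr (Or.inr rfl)) h3
          simp only [op, Prod.mk.injEq, e, e', e'']
          refine ⟨?_, trivial⟩
          funext i
          simp only [Pi.smul_apply, Pi.add_apply, smul_eq_mul]
          ring

end Pool.Agent.H397HA
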