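import Pool.Agent.H397HA.High

set_option autoImplicit false

namespace Pool.Agent.H397HA

variable {k : ℕ}

/-- a linear condition on the coordinate of an edge block -/
noncomputable def Lin (hk : 2 ≤ k) (l c1 : Fin (k+1)) (hc : c1 ≠ l) (f : W k →+ ZMod 3) :
    Cl k where
  carrier := {x | InT l x.2 ∧ (th c1 x).1 l = f x.2}
  zero' := ⟨InT.zero _, by rw [th_zero]; simp⟩
  neg' := fun x hx => ⟨hx.1.neg, by rw [th_neg]; simp [hx.2]⟩
  J' := fun x hx j hj t => by
    have hlj : l ≠ j := by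
      rintro rfl; exact hj hx.1
    refine ⟨InT.zero _, ?_⟩
    simp [th, hlj]
  add' := by
    have key : ∀ p p' : V k, (InT l p.2 ∧ (th c1 p).1 l = f p.2) →
        (InT l p'.2 ∧ (th c1 p').1 l = f p'.2) →
        (InT l (op c1 p p').2 ∧ (th c1 (op c1 p p')).1 l = f (op c1 p p').2) := by
      rintro p p' ⟨h1, h2⟩ ⟨h3, h4⟩
      refine ⟨h1.add h3, ?_⟩
      rw [th_op, op_snd, map_add, Prod.fst_add, Pi.add_apply, h2, h4]
    have kneg : ∀ p : V k, (InT l p.2 ∧ (th c1 p).1 l = f p.2) →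
        (InT l (-p).2 ∧ (th c1 (-p)).1 l = f (-p).2) := by
      rintro p ⟨h1, h2⟩
      exact ⟨h1.neg, by rw [th_neg]; simp [h2]⟩
    intro c j hcj p hp p' hp' h1 h2
    obtain ⟨η, hη, h⟩ := ratio hk hcj hc
    have h3 : ∀ q, (q = p.2 ∨ q = p'.2 ∨ q = p.2 + p'.2) → q ≠ 0 → s c q = η * s c1 q := by
      rintro q hq hq0
      apply h q _ _ hq0
      · rcases hq with rfl | rfl | rfl
        · exact h1
        · exact h2
        · exact h1.add h2
      · rcases hq with rfl | rfl | rfl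
        · exact hp.1
        · exact hp'.1
        · exact hp.1.add hp'.1
    rcases op_switch hη h3 with h4 | h4 | h4 | h4
    · rw [h4]; exact key _ _ hp hp'
    · rw [h4]; exact key _ _ (kneg _ hp) hp'
    · rw [h4]; exact key _ _ hp (kneg _ hp')
    · rw [h4]; exact kneg _ (key _ _ hp hp')
  up' := by
    intro x hx y hy h
    exact absurd ⟨hx.1, hy.1⟩ (h l)

/-- the hyperplane above -/
def Hyp (k : ℕ) : Cl k where
  carrier := {x | ∑ i, x.2 i = 0}
  zero' := by simp
  neg' := fun x hx => by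
    simp only [Set.mem_ofPred_eq, Prod.snd_neg, Pi.neg_apply, Finset.sum_neg_distrib] at hx ⊢
    rw [hx, neg_zero]
  J' := fun x _ j _ t => by simp
  add' := fun c j _ x hx y hy _ _ => by
    simp only [Set.mem_ofPred_eq, op_snd, Pi.add_apply, Finset.sum_add_distrib] at hx hy ⊢
    rw [hx, hy, add_zero]
  up' := fun x hx y hy _ u => by
    simp only [Set.mem_ofPred_eq, Pi.add_apply, Finset.sum_add_distrib] at hx hy ⊢
    rw [hx, hy, add_zero]

theorem last_ne_zero (hk : 2 ≤ k) : Fin.last k ≠ (0 : Fin (k+1)) := by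
  intro h
  have := congrArg Fin.val h; simp at this; omega

open Classical in
/-- the cut used at the edge `l` -/
noncomputable def cl (l : Fin (k+1)) : Fin (k+1) := if l = Fin.last k then 0 else Fin.last k

theorem cl_ne (hk : 2 ≤ k) (l : Fin (k+1)) : cl l ≠ l := by
  unfold cl
  split_ifs with h
  · rw [h]; exact (last_ne_zero hk).symm
  · exact fun h' => h h'.symm

theorem cl_last : cl (Fin.last k) = 0 := by simp [cl]
theorem cl_of_ne {l : Fin (k+1)} (h : l ≠ Fin.last k) : cl l = Fin.last k := by simp [cl, h]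

/-- evaluation -/
def ev (i : Fin (k+1)) : W k →+ ZMod 3 := Pi.evalAddMonoidHom (fun _ => ZMod 3) i

@[simp] theorem ev_apply (i : Fin (k+1)) (q : W k) : ev i q = q i := rfl

open Classical in
/-- the functional at the edge `l` -/
noncomputable def fu (l : Fin (k+1)) : W k →+ ZMod 3 :=
  if l = Fin.last k then ev 0 - ev (Fin.last k) else ev l + ev (l+1)

/-- first family -/
noncomputable def AA (hk : 2 ≤ k) (l : Fin (k+1)) : Cl k := Lin hk l (cl l) (cl_ne hk l) 0
/-- second family -/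
noncomputable def BB (hk : 2 ≤ k) (l : Fin (k+1)) : Cl k := Lin hk l (cl l) (cl_ne hk l) (fu l)
/-- the bound -/
noncomputable def NN (hk : 2 ≤ k) : Cl k :=
  Lin hk (Fin.last k) 0 (last_ne_zero hk).symm (ev (Fin.last k))

theorem mem_AA {hk : 2 ≤ k} {l : Fin (k+1)} {x : V k} :
    x ∈ (AA hk l).carrier ↔ InT l x.2 ∧ (th (cl l) x).1 l = 0 := Iff.rfl
theorem mem_BB {hk : 2 ≤ k} {l : Fin (k+1)} {x : V k} :
    x ∈ (BB hk l).carrier ↔ InT l x.2 ∧ (th (cl l) x).1 l = fu l x.2 := Iff.rfl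
theorem mem_NN {hk : 2 ≤ k} {x : V k} :
    x ∈ (NN hk).carrier ↔ InT (Fin.last k) x.2 ∧ (th 0 x).1 (Fin.last k) = x.2 (Fin.last k) :=
  Iff.rfl

/-- the vertex with index `i` -/
def vx (k : ℕ) (i : ℕ) : Fin (k+1) := ⟨(i - 1) % (k+1), Nat.mod_lt _ (Nat.succ_pos k)⟩

theorem vx_succ {i : ℕ} (hi : 1 ≤ i) : vx k (i+1) = vx k i + 1 := by
  obtain ⟨j, rfl⟩ : ∃ j, i = j + 1 := ⟨i - 1, by omega⟩
  apply Fin.ext
  rw [Fin.val_add, Fin.val_one']
  simp [vx, Nat.add_mod]

theorem vx_one : vx k 1 = 0 := by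
  apply Fin.ext; simp [vx]
theorem vx_last : vx k (k+1) = Fin.last k := by
  apply Fin.ext
  simp only [vx, Fin.val_last, Nat.add_sub_cancel]
  exact Nat.mod_eq_of_lt (Nat.lt_succ_self k)

theorem vx_val {i : ℕ} (hi : i ≤ k) : (vx k i).val = i - 1 := by
  unfold vx
  exact Nat.mod_eq_of_lt (by omega)

theorem vx_ne_last {i : ℕ} (h1 : 1 ≤ i) (hi : i ≤ k) : vx k i ≠ Fin.last k := by
  intro h
  have h2 := congrArg Fin.val h
  rw [vx_val hi] at h2
  simp at h2
  omega

/-- the points `a_i` -/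
noncomputable def aa (hk : 2 ≤ k) (i : ℕ) : Cl k := AA hk (vx k i) ⊓ AA hk (vx k i - 1)
/-- the points `b_i` -/
noncomputable def bb (hk : 2 ≤ k) (i : ℕ) : Cl k := BB hk (vx k i) ⊓ BB hk (vx k i - 1)

theorem InT_single (l : Fin (k+1)) : InT l (Pi.single l 1 : W k) := by
  intro i h1 _
  simp [h1]

theorem InT_single' (l : Fin (k+1)) : InT (l - 1) (Pi.single l 1 : W k) := by
  intro i _ h2
  have : i ≠ l := by simpa using h2
  simp [this]

theorem single_ne (l : Fin (k+1)) : (Pi.single l 1 : W k) ≠ 0 := by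
  intro h
  have := congrFun h l
  simp at this

theorem s_last_cut {q : W k} (hq : q ≠ 0) : s (Fin.last k) q = -1 := by
  unfold s
  rw [if_pos]
  exact ⟨hq, fun i hi => absurd hi (not_lt.2 (Fin.le_last i))⟩

theorem mem_a (hk : 2 ≤ k) (l : Fin (k+1)) :
    ((0, Pi.single l 1) : V k) ∈ (AA hk l ⊓ AA hk (l - 1)).carrier := by
  refine mem_inf.2 ⟨mem_AA.2 ⟨InT_single l, ?_⟩, mem_AA.2 ⟨InT_single' l, ?_⟩⟩ <;> simp [th]

theorem zero_sub_one : (0 - 1 : Fin (k+1)) = Fin.last k := by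
  rw [sub_eq_iff_eq_add]; exact (Fin.last_add_one k).symm

theorem s_zero_cut_single0 : s (0 : Fin (k+1)) (Pi.single 0 1 : W k) = -1 := by
  unfold s
  rw [if_pos]
  refine ⟨single_ne 0, fun i hi => ?_⟩
  have : i ≠ 0 := hi.ne'
  simp [this]

theorem s_zero_cut_last (hk : 2 ≤ k) :
    s (0 : Fin (k+1)) (Pi.single (Fin.last k) 1 : W k) = 1 := by
  unfold s
  rw [if_neg]
  rintro ⟨-, h⟩
  have := h (Fin.last k) (Fin.pos_iff_ne_zero.2 (last_ne_zero hk))
  simp at this

theorem ne_add_one (hk : 2 ≤ k) (l : Fin (k+1)) : l + 1 ≠ l := (fin_one_ne hk l).symm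

theorem sub_one_ne (hk : 2 ≤ k) (l : Fin (k+1)) : l - 1 ≠ l := by
  intro h
  have := fin_one_ne hk (l - 1)
  apply this
  rw [sub_add_cancel]; exact h

theorem mem_BB_of (hk : 2 ≤ k) {l m : Fin (k+1)} (hl : l ≠ Fin.last k)
    (hT : InT l (Pi.single m 1 : W k)) (hf : (Pi.single m 1 : W k) l + (Pi.single m 1 : W k) (l+1) = 1) :
    ((-1, Pi.single m 1) : V k) ∈ (BB hk l).carrier := by
  refine mem_BB.2 ⟨hT, ?_⟩
  simp only [cl_of_ne hl, th, s_last_cut (single_ne m), fu, if_neg hl, AddMonoidHom.add_apply,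
    ev_apply, hf]
  simp

theorem mem_b (hk : 2 ≤ k) (m : Fin (k+1)) :
    ((-1, Pi.single m 1) : V k) ∈ (BB hk m ⊓ BB hk (m - 1)).carrier := by
  refine mem_inf.2 ⟨?_, ?_⟩
  · by_cases hm : m = Fin.last k
    · subst hm
      refine mem_BB.2 ⟨InT_single _, ?_⟩
      simp only [cl_last, th, s_zero_cut_last hk, fu, if_true, AddMonoidHom.sub_apply, ev_apply]
      simp [last_ne_zero hk, (last_ne_zero hk).symm]
    · apply mem_BB_of hk hm (InT_single m)
      simp [ne_add_one hk m]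
  · by_cases hm : m - 1 = Fin.last k
    · have hm0 : m = 0 := by
        have : m = Fin.last k + 1 := by rw [← hm]; simp
        rw [this]; exact Fin.last_add_one k
      subst hm0
      rw [hm]
      refine mem_BB.2 ⟨by rw [← hm]; exact InT_single' _, ?_⟩
      simp only [cl_last, th, s_zero_cut_single0, fu, if_true, AddMonoidHom.sub_apply, ev_apply]
      simp [last_ne_zero hk, (last_ne_zero hk).symm]
    · apply mem_BB_of hk hm (InT_single' m)
      simp [sub_one_ne hk m]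

theorem sum_of_InT (hk : 2 ≤ k) {l : Fin (k+1)} {q : W k} (h : InT l q) :
    ∑ i, q i = q l + q (l+1) :=
  Fintype.sum_eq_add l (l+1) (fin_one_ne hk l) (fun x hx => h x hx.1 hx.2)

theorem fail (hk : 2 ≤ k) :
    ¬ (∀ (a b : ℕ → Cl k) (h : (Finset.Icc 1 (k + 1 - 1)).Nonempty),
          a (k + 1) ⊓ ((Finset.Icc 1 (k + 1 - 1)).inf' h (fun i => a i ⊔ b i) ⊔ b (k + 1)) ≤
            a 1 ⊔ ((Finset.Icc 1 (k + 1 - 1)).sup' h
                (fun i => (a i ⊔ a (i + 1)) ⊓ (b i ⊔ b (i + 1))) ⊓ (b 1 ⊔ b (k + 1)))) := by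
  intro hall
  have hne : (Finset.Icc 1 (k + 1 - 1)).Nonempty := ⟨1, Finset.mem_Icc.2 ⟨le_rfl, by omega⟩⟩
  have h0 := hall (aa hk) (bb hk) hne
  -- upper bound of the right side
  have hstep : ∀ i, 1 ≤ i → (aa hk i ⊔ aa hk (i+1) ≤ AA hk (vx k i)) ∧
      (bb hk i ⊔ bb hk (i+1) ≤ BB hk (vx k i)) := by
    intro i hi
    constructor
    · apply sup_le inf_le_left
      have : vx k (i+1) - 1 = vx k i := by rw [vx_succ hi]; simp
      unfold aa
      rw [this]; exact inf_le_right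
    · apply sup_le inf_le_left
      have : vx k (i+1) - 1 = vx k i := by rw [vx_succ hi]; simp
      unfold bb
      rw [this]; exact inf_le_right
  have hH : (Finset.Icc 1 (k + 1 - 1)).sup' hne
      (fun i => (aa hk i ⊔ aa hk (i + 1)) ⊓ (bb hk i ⊔ bb hk (i + 1))) ≤ Hyp k := by
    apply Finset.sup'_le
    intro i hi
    rw [Finset.mem_Icc] at hi
    have hl := vx_ne_last (k := k) hi.1 (by omega)
    refine le_trans (inf_le_inf (hstep i hi.1).1 (hstep i hi.1).2) ?_
    intro x hx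
    obtain ⟨h1, h2⟩ := mem_inf.1 hx
    rw [mem_AA] at h1
    rw [mem_BB] at h2
    change ∑ i, x.2 i = 0
    rw [sum_of_InT hk h1.1]
    have h3 := h2.2
    rw [h1.2] at h3
    simp only [fu, if_neg hl, AddMonoidHom.add_apply, ev_apply] at h3
    exact h3.symm
  have ha1 : aa hk 1 ≤ NN hk := by
    intro x hx
    unfold aa at hx
    rw [vx_one, zero_sub_one] at hx
    obtain ⟨h1, h2⟩ := mem_inf.1 hx
    rw [mem_AA] at h1 h2
    rw [mem_NN]
    refine ⟨h2.1, ?_⟩
    rw [cl_last] at h2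
    rw [h2.2]
    symm
    apply h1.1
    · exact last_ne_zero hk
    · intro h
      have := congrArg Fin.val h
      rw [zero_add, Fin.val_one'] at this
      rw [Nat.mod_eq_of_lt (by omega)] at this
      simp at this
      omega
  have hbb : bb hk 1 ⊔ bb hk (k+1) ≤ BB hk (Fin.last k) := by
    apply sup_le
    · unfold bb
      rw [vx_one, zero_sub_one]; exact inf_le_right
    · unfold bb
      rw [vx_last]; exact inf_le_left
  have hG : Hyp k ⊓ BB hk (Fin.last k) ≤ NN hk := by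
    intro x hx
    obtain ⟨h1, h2⟩ := mem_inf.1 hx
    rw [mem_BB] at h2
    change ∑ i, x.2 i = 0 at h1
    rw [sum_of_InT hk h2.1, Fin.last_add_one] at h1
    rw [mem_NN]
    refine ⟨h2.1, ?_⟩
    have h3 := h2.2
    rw [cl_last] at h3
    rw [h3]
    simp only [fu, if_true, AddMonoidHom.sub_apply, ev_apply]
    have h4 : (3 : ZMod 3) = 0 := by decide
    linear_combination h1 - x.2 (Fin.last k) * h4
  have hR : aa hk 1 ⊔ ((Finset.Icc 1 (k + 1 - 1)).sup' hne
      (fun i => (aa hk i ⊔ aa hk (i + 1)) ⊓ (bb hk i ⊔ bb hk (i + 1))) ⊓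
        (bb hk 1 ⊔ bb hk (k + 1))) ≤ NN hk :=
    sup_le ha1 (le_trans (inf_le_inf hH hbb) hG)
  -- the point on the left
  have hz : ∀ i, 1 ≤ i → ((1, 0) : V k) ∈ (aa hk i ⊔ bb hk i).carrier := by
    intro i hi
    obtain ⟨c, hc⟩ := exists_ne hk (vx k i)
    have h1 := mem_a hk (vx k i)
    have h2 := mem_b hk (vx k i)
    have h3 := (aa hk i ⊔ bb hk i).add' c (vx k i) hc _ (mem_sup_left h1) _
      (mem_sup_right ((bb hk i).neg' _ h2)) (InT_single _) (InT_single _).neg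
    have h4 := sgn_smul_mem h3 (s_or c (Pi.single (vx k i) 1))
    have h5 := s_mul_self c (Pi.single (vx k i) 1 : W k)
    have e : s c (Pi.single (vx k i) 1 : W k) •
        op c ((0, Pi.single (vx k i) 1) : V k) (-((-1, Pi.single (vx k i) 1) : V k)) = (1, 0) := by
      simp only [op, Prod.neg_mk, neg_neg, s_neg, add_neg_cancel, s_zero, smul_zero,
        zero_add, Prod.smul_mk, smul_smul, one_mul, h5, one_smul]
    rwa [e] at h4
  have hy1 : ((0, Pi.single (Fin.last k) 1) : V k) ∈ (aa hk (k+1)).carrier := by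
    unfold aa
    rw [vx_last]; exact mem_a hk _
  have hb2 : ((-1, Pi.single (Fin.last k) 1) : V k) ∈ (bb hk (k+1)).carrier := by
    unfold bb
    rw [vx_last]; exact mem_b hk _
  have hzM : ((1, 0) : V k) ∈
      ((Finset.Icc 1 (k + 1 - 1)).inf' hne (fun i => aa hk i ⊔ bb hk i)).carrier := by
    have : interS (fun C : Cl k => ((1, 0) : V k) ∈ C.carrier) ≤
        (Finset.Icc 1 (k + 1 - 1)).inf' hne (fun i => aa hk i ⊔ bb hk i) := by
      apply Finset.le_inf'
      intro i hi x hx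
      rw [Finset.mem_Icc] at hi
      exact hx _ (hz i hi.1)
    exact this (fun C hC => hC)
  have hy2 : ((0, Pi.single (Fin.last k) 1) : V k) ∈
      ((Finset.Icc 1 (k + 1 - 1)).inf' hne (fun i => aa hk i ⊔ bb hk i) ⊔ bb hk (k+1)).carrier := by
    have := shift hk (mem_sup_right (A := (Finset.Icc 1 (k + 1 - 1)).inf' hne
      (fun i => aa hk i ⊔ bb hk i)) hb2) (mem_sup_left hzM)
    simpa using this
  have hfin := hR (h0 (mem_inf.2 ⟨hy1, hy2⟩))
  rw [mem_NN] at hfin
  have h6 := hfin.2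
  simp [th] at h6

end Pool.Agent.H397HA
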