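import Mathlib

set_option autoImplicit false

namespace Pool.Agent.H397HA

/-- the pentagon: `o < x < z < i`, `o < y < i` -/
inductive N5 | o | x | z | y | i
  deriving DecidableEq, Fintype

namespace N5

/-- order as a decision table -/
def leb : N5 → N5 → Bool
  | o, _ => true
  | _, i => true
  | x, x => true
  | x, z => true
  | z, z => true
  | y, y => true
  | _, _ => false

/-- join -/
def sup' (a b : N5) : N5 := if leb a b then b else if leb b a then a else i
/-- meet -/
def inf' (a b : N5) : N5 := if leb a b then a else if leb b a then b else o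

instance : LE N5 := ⟨fun a b => leb a b = true⟩

instance : DecidableRel (fun a b : N5 => a ≤ b) := fun a b =>
  inferInstanceAs (Decidable (leb a b = true))

instance : PartialOrder N5 where
  le_refl := by decide
  le_trans := by decide
  le_antisymm := by decide

instance : Lattice N5 where
  sup := sup'
  inf := inf'
  le_sup_left := by decide
  le_sup_right := by decide
  sup_le := by decide
  inf_le_left := by decide
  inf_le_right := by decide
  le_inf := by decide

end N5

theorem five :
    ¬ (∀ (a b : ℕ → N5) (h : (Finset.Icc 1 (1 + 1 - 1)).Nonempty),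
          a (1 + 1) ⊓ ((Finset.Icc 1 (1 + 1 - 1)).inf' h (fun i => a i ⊔ b i) ⊔ b (1 + 1)) ≤
            a 1 ⊔ ((Finset.Icc 1 (1 + 1 - 1)).sup' h
                (fun i => (a i ⊔ a (i + 1)) ⊓ (b i ⊔ b (i + 1))) ⊓ (b 1 ⊔ b (1 + 1)))) := by
  intro hall
  have h := hall (fun n => if n = 1 then N5.x else N5.z) (fun _ => N5.y) ⟨1, by simp⟩
  revert h
  decide

end Pool.Agent.H397HA
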