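import Pool.Agent.H397HA.Main

set_option autoImplicit false

namespace Pool.Agent.H397HA

variable {k : ℕ}

theorem shiftE (hk : 2 ≤ k) {S : Cl k} {c : Fin (k+1)} (hE : E c S) {x : V k} {α : ZMod 3} :
    (((x.1 + Pi.single c α, x.2) : V k) ∈ S.carrier) ↔ x ∈ S.carrier := by
  constructor
  · intro h
    have := shift hk h (hE (-α))
    have e : ((x.1 + Pi.single c α + Pi.single c (-α), x.2) : V k) = x := by
      rw [Pi.single_neg]; simp
    simpa only [e] using this
  · intro h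
    exact shift hk h (hE α)

theorem th_sub_snd {c : Fin (k+1)} {x y p : V k} (h : th c p = th c x - th c y) :
    p.2 = x.2 - y.2 := by
  have := congrArg Prod.snd h
  simpa using this

/-- the one-step lemma, with a correction along `e_c` -/
theorem step (hk : 2 ≤ k) {A A' B B' : Cl k} {c : Fin (k+1)} {w w' v v' D : V k}
    (hw : w ∈ A.carrier) (hw' : w' ∈ A'.carrier) (hv : v ∈ B.carrier) (hv' : v' ∈ B'.carrier)
    (hD : th c D = th c w - th c w') (hD' : th c D = th c v - th c v')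
    (hE : E c A ∨ E c B) :
    ∃ α : ZMod 3, ((D.1 + Pi.single c α, D.2) : V k) ∈ ((A ⊔ A') ⊓ (B ⊔ B')).carrier := by
  rcases hE with h | h
  · obtain ⟨α, hα⟩ := corr hk c (S := B ⊔ B') (mem_sup_left hv) (mem_sup_right (B'.neg' _ hv'))
    have e : op c v (-v') = D := by
      apply th_inj (c := c); rw [th_op, th_neg, hD']; abel
    have e2 : v.2 + (-v').2 = D.2 := by rw [← e]; rfl
    rw [e, e2] at hα
    refine ⟨α, mem_inf.2 ⟨?_, hα⟩⟩
    rw [shiftE hk (h.mono le_sup_left)]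
    exact sum_sub hk (mem_sup_left hw) (mem_sup_right hw') (Or.inr (h.mono le_sup_left)) hD
  · obtain ⟨α, hα⟩ := corr hk c (S := A ⊔ A') (mem_sup_left hw) (mem_sup_right (A'.neg' _ hw'))
    have e : op c w (-w') = D := by
      apply th_inj (c := c); rw [th_op, th_neg, hD]; abel
    have e2 : w.2 + (-w').2 = D.2 := by rw [← e]; rfl
    rw [e, e2] at hα
    refine ⟨α, mem_inf.2 ⟨hα, ?_⟩⟩
    rw [shiftE hk (h.mono le_sup_left)]
    exact sum_sub hk (mem_sup_left hv) (mem_sup_right hv') (Or.inr (h.mono le_sup_left)) hD'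

/-- the closing lemma -/
theorem closing (hk : 2 ≤ k) {A A' B B' : Cl k} {c : Fin (k+1)} {w w' v v' D : V k}
    (hw : w ∈ A.carrier) (hw' : w' ∈ A'.carrier) (hv : v ∈ B.carrier) (hv' : v' ∈ B'.carrier)
    (hD : th c D = th c w - th c w') (hD' : th c D = th c v - th c v')
    (hE : E c A ∨ E c B) :
    ∃ α : ZMod 3, ((D.1 + Pi.single c α, D.2) : V k) ∈ ((A ⊔ A') ⊓ (B ⊔ B')).carrier ∧
      ∀ S : Cl k, A ≤ S → ((D.1 + Pi.single c α, D.2) : V k) ∈ S.carrier → w' ∈ S.carrier := by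
  have hD2 : D.2 = w.2 - w'.2 := th_sub_snd hD
  by_cases hA : E c A
  · obtain ⟨α, hα⟩ := step hk hw hw' hv hv' hD hD' (Or.inl hA)
    refine ⟨α, hα, fun S hAS hS => ?_⟩
    rw [shiftE hk (hA.mono hAS)] at hS
    exact sum_sub hk (hAS hw) hS (Or.inr (hA.mono hAS)) (by rw [hD]; abel)
  · have hB : E c B := hE.resolve_left hA
    by_cases hb : Bad c w.2 w'.2
    · obtain ⟨c', hc'⟩ := exists_ne hk c
      set X := op c' w (-w') with hX
      have hXm : X ∈ (A ⊔ A').carrier :=
        (A ⊔ A').add' c' c hc' _ (mem_sup_left hw) _ (mem_sup_right (A'.neg' _ hw')) hb.1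
          (InT.neg_iff.2 hb.2.1)
      have hX2 : X.2 = D.2 := by rw [hX, op_snd, hD2]; simp [sub_eq_add_neg]
      have hXth : th c' X = th c' w - th c' w' := by rw [hX, th_op, th_neg]; abel
      have hEj : ∀ (S : Cl k) (j : Fin (k+1)), w ∈ S.carrier →
          (∃ x ∈ S.carrier, x.2 = D.2) → j ≠ c → E j S := by
        rintro S j hwS ⟨x, hx, hx2⟩ hj t
        by_cases h1 : InT j w.2
        · apply S.J' x hx j _ t
          intro h2
          apply hj
          apply hb.2.2 j h1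
          rw [hx2, hD2] at h2
          have e : w'.2 = w.2 - (w.2 - w'.2) := by abel
          rw [e]; exact h1.sub h2
        · exact S.J' w hwS j h1 t
      refine ⟨X.1 c - D.1 c, mem_inf.2 ⟨?_, ?_⟩, ?_⟩
      · refine shift' hk hXm hX2.symm ?_
        intro j hj
        by_cases h4 : j = c
        · subst h4; simp at hj
        · exact hEj _ j (mem_sup_left hw) ⟨X, hXm, hX2⟩ h4
      · rw [shiftE hk (hB.mono le_sup_left)]
        exact sum_sub hk (mem_sup_left hv) (mem_sup_right hv') (Or.inr (hB.mono le_sup_left)) hD'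
      · intro S hAS hS
        set D' : V k := (D.1 + Pi.single c (X.1 c - D.1 c), D.2) with hD'def
        have hwS : w ∈ S.carrier := hAS hw
        have hDT : InT c D'.2 := by
          change InT c D.2
          rw [hD2]; exact hb.1.sub hb.2.1
        have h5 : op c' w (-D') ∈ S.carrier :=
          S.add' c' c hc' _ hwS _ (S.neg' _ hS) hb.1 (InT.neg_iff.2 hDT)
        have h6 : (op c' w (-D')).2 = w'.2 := by
          rw [op_snd]
          change w.2 + -D.2 = w'.2
          rw [hD2]; abel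
        have h7 : th c' (op c' w (-D')) = th c' w - th c' D' := by rw [th_op, th_neg]; abel
        refine shift' hk h5 h6.symm ?_
        intro j hj
        by_cases h4 : j = c
        · exfalso
          apply hj
          subst h4
          have e1 : D'.1 j = X.1 j := by simp [hD'def]
          have e2 : (th c' D').1 j = (th c' X).1 j := by
            unfold th
            have : D'.2 = X.2 := hX2.symm
            simp only [this, Pi.smul_apply, e1]
          have e3 : (th c' (op c' w (-D'))).1 j = (th c' w').1 j := by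
            rw [h7, Prod.fst_sub, Pi.sub_apply, e2, hXth]; simp
          unfold th at e3
          simp only [h6, Pi.smul_apply, smul_eq_mul] at e3
          have e4 := s_mul_self c' w'.2
          linear_combination (-s c' w'.2) * e3 + ((op c' w (-D')).1 j - w'.1 j) * e4
        · exact hEj _ j hwS ⟨D', hS, rfl⟩ h4
    · refine ⟨0, ?_, ?_⟩
      · rw [Pi.single_zero, add_zero]
        refine mem_inf.2 ⟨?_, ?_⟩
        · exact sum_sub hk (mem_sup_left hw) (mem_sup_right hw') (Or.inl hb) hD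
        · exact sum_sub hk (mem_sup_left hv) (mem_sup_right hv') (Or.inr (hB.mono le_sup_left)) hD'
      · intro S hAS hS
        rw [Pi.single_zero, add_zero] at hS
        refine sum_sub hk (hAS hw) hS (Or.inl ?_) (by rw [hD]; abel)
        rintro ⟨h1, h2, h3⟩
        apply hb
        change InT c D.2 at h2
        have e : w'.2 = w.2 - D.2 := by rw [hD2]; abel
        refine ⟨h1, by rw [e]; exact h1.sub h2, fun j h4 h5 => h3 j h4 ?_⟩
        change InT j D.2
        rw [hD2]; exact h4.sub h5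

/-- rungs in the gauge with cut `c` when `M` is not inside `T_c` -/
theorem rungs (hk : 2 ≤ k) {a b : ℕ → Cl k} {M : Cl k} {c : Fin (k+1)}
    (hM : ∀ i, 1 ≤ i → i < k → M ≤ a i ⊔ b i) (hc : ¬ SubT c M) {y : V k}
    (hya : y ∈ (a k).carrier) (hyM : y ∈ (M ⊔ b k).carrier) :
    (∀ i, 1 ≤ i → i < k → E c (a i) ∨ E c (b i)) ∧
    ∃ w v : ℕ → V k, ∃ z ∈ M.carrier, w k = y ∧
      (∀ i, 1 ≤ i → i ≤ k → w i ∈ (a i).carrier) ∧
      (∀ i, 1 ≤ i → i ≤ k → v i ∈ (b i).carrier) ∧
      (∀ i, 1 ≤ i → i ≤ k → th c (w i) - th c (v i) = th c z) := by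
  have hn : ∀ i, 1 ≤ i → i < k → ¬ (SubT c (a i) ∧ SubT c (b i)) := by
    rintro i h1 h2 ⟨h3, h4⟩
    exact hc (fun x hx => (h3.sup hk h4) x (hM i h1 h2 hx))
  refine ⟨fun i h1 h2 => ?_, ?_⟩
  · by_contra h
    push Not at h
    exact hn i h1 h2 ⟨SubT_of_not h.1, SubT_of_not h.2⟩
  · have h1 : ¬ LBad c M (b k) := fun h => hc h.1
    obtain ⟨z, hz, v0, hv0, hy⟩ := join_dec hk h1 hyM
    have hex : ∀ i, ∃ w v : V k, 1 ≤ i → i ≤ k →
        (w ∈ (a i).carrier ∧ v ∈ (b i).carrier ∧ th c w - th c v = th c z ∧ (i = k → w = y)) := by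
      intro i
      by_cases h1 : 1 ≤ i
      · by_cases h2 : i < k
        · have h3 : ¬ LBad c (a i) (b i) := fun h => hn i h1 h2 ⟨h.1, h.2.1⟩
          obtain ⟨x, hx, x', hx', e⟩ := join_dec hk h3 (hM i h1 h2 hz)
          refine ⟨x, -x', fun _ _ => ⟨hx, (b i).neg' _ hx', ?_, fun h => absurd h (by omega)⟩⟩
          rw [e, th_op, th_neg]; abel
        · by_cases h3 : i = k
          · subst h3
            refine ⟨y, v0, fun _ _ => ⟨hya, hv0, ?_, fun _ => rfl⟩⟩
            rw [hy, th_op]; abel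
          · exact ⟨0, 0, fun _ h => absurd h (by omega)⟩
      · exact ⟨0, 0, fun h _ => absurd h h1⟩
    choose w v hwv using hex
    exact ⟨w, v, z, hz, (hwv k (by omega) le_rfl).2.2.2 rfl, fun i h1 h2 => (hwv i h1 h2).1,
      fun i h1 h2 => (hwv i h1 h2).2.1, fun i h1 h2 => (hwv i h1 h2).2.2.1⟩

theorem fin_one_ne (hk : 2 ≤ k) (a : Fin (k+1)) : a ≠ a + 1 := by
  intro h
  have h1 : (1 : Fin (k+1)) = 0 := by
    have := congrArg (fun x => x - a) h
    simpa using this.symm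
  have := congrArg Fin.val h1
  rw [Fin.val_one'] at this
  simp at this; omega

theorem fin_two_ne (hk : 2 ≤ k) (a : Fin (k+1)) : a ≠ a + 1 + 1 := by
  intro h
  have h1 : (1 + 1 : Fin (k+1)) = 0 := by
    have := congrArg (fun x => x - a) h
    rw [add_assoc] at this
    simpa using this.symm
  have := congrArg Fin.val h1
  rw [Fin.val_add, Fin.val_one'] at this
  have e : 1 % (k+1) = 1 := Nat.mod_eq_of_lt (by omega)
  rw [e, Nat.mod_eq_of_lt (by omega)] at this
  simp at this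

theorem bad_absurd (hk : 2 ≤ k) {a b : ℕ → Cl k} {M : Cl k} {c p a0 : Fin (k+1)} {z0 : V k}
    (w v : ℕ → V k) (ξ : W k)
    (hv : ∀ i, 1 ≤ i → i ≤ k → v i ∈ (b i).carrier)
    (hw : ∀ i, 1 ≤ i → i ≤ k → w i ∈ (a i).carrier)
    (hr : ∀ i, 1 ≤ i → i ≤ k → (w i).2 - (v i).2 = ξ)
    (hz0 : ∀ i, 1 ≤ i → i < k → z0 ∈ (a i ⊔ b i).carrier)
    (hza : z0.2 a0 ≠ 0) (hca : a0 ≠ c) (hca' : a0 ≠ c + 1) (hcp : c ≠ p)
    (hξ : InT p ξ ∨ (a0 ≠ p ∧ a0 ≠ p + 1))
    (hH : ∀ i, 1 ≤ i → i < k → ¬ (E p (a i) ∧ E p (b i)))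
    (hwd : ∀ i, 1 ≤ i → i ≤ k → InT p ((w 1).2 - (w i).2))
    (i i' : ℕ) (h1 : 1 ≤ i) (h2 : i < k) (h3 : 1 ≤ i') (h4 : i' ≤ k) :
    ¬ Bad c (w i).2 (w i').2 ∨ E c (a i) := by
  by_contra hcon
  push Not at hcon
  obtain ⟨hb, hE⟩ := hcon
  have hSub := SubT_of_not hE
  have hn1 : ¬ InT p (w 1).2 := by
    intro h
    have e1 : InT p (w i).2 := by
      have e : (w i).2 = (w 1).2 - ((w 1).2 - (w i).2) := by abel
      rw [e]; exact h.sub (hwd i h1 (by omega))
    have e2 : InT p (w i').2 := by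
      have e : (w i').2 = (w 1).2 - ((w 1).2 - (w i').2) := by abel
      rw [e]; exact h.sub (hwd i' h3 h4)
    exact hcp (hb.2.2 p e1 e2).symm
  have hni : ¬ InT p (w i).2 := by
    intro h
    apply hn1
    have e : (w 1).2 = ((w 1).2 - (w i).2) + (w i).2 := by abel
    rw [e]; exact (hwd i h1 (by omega)).add h
  have hEa : E p (a i) := fun t => (a i).J' _ (hw i h1 (by omega)) p hni t
  have hSb : SubT p (b i) := SubT_of_not (fun h => hH i h1 h2 ⟨hEa, h⟩)
  rcases hξ with h | h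
  · apply hni
    have e : (w i).2 = (v i).2 + ξ := by rw [← hr i h1 (by omega)]; abel
    rw [e]
    exact (hSb _ (hv i h1 (by omega))).add h
  · obtain ⟨x, hx, y, hy, hxy⟩ := join_q hk (hz0 i h1 h2)
    apply hza
    rw [hxy, Pi.add_apply, hSub x hx a0 hca hca', hSb y hy a0 h.1 h.2, add_zero]

theorem high_case (hk : 2 ≤ k) {a b : ℕ → Cl k} {M H : Cl k}
    (hM : ∀ i, 1 ≤ i → i < k → M ≤ a i ⊔ b i)
    (hH : ∀ i, 1 ≤ i → i < k → (a i ⊔ a (i+1)) ⊓ (b i ⊔ b (i+1)) ≤ H)
    {z0 : V k} (hz0 : z0 ∈ M.carrier) (hz02 : z0.2 ≠ 0) {y : V k} (hya : y ∈ (a k).carrier)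
    (hyM : y ∈ (M ⊔ b k).carrier) : y ∈ (a 1 ⊔ (H ⊓ (b 1 ⊔ b k))).carrier := by
  -- common: differences
  have diff : ∀ {c : Fin (k+1)} {w v : ℕ → V k} {z : V k},
      (∀ i, 1 ≤ i → i ≤ k → th c (w i) - th c (v i) = th c z) →
      ∀ i i', 1 ≤ i → i ≤ k → 1 ≤ i' → i' ≤ k →
      th c (w i) - th c (w i') = th c (v i) - th c (v i') := by
    intro c w v z hr i i' h1 h2 h3 h4
    have e1 := hr i h1 h2
    have e2 := hr i' h3 h4
    rw [sub_eq_iff_eq_add] at e1 e2
    rw [e1, e2]; abel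
  by_cases hcase : (∃ p, ¬ E p H) ∧ 3 ≤ k
  · obtain ⟨⟨p, hp⟩, hk3⟩ := hcase
    have hpH := SubT_of_not hp
    -- choose the coordinate `a0`
    obtain ⟨z1, hz1, a0, hza, hMa⟩ : ∃ z1 ∈ M.carrier, ∃ a0, z1.2 a0 ≠ 0 ∧
        (SubT p M ∨ (a0 ≠ p ∧ a0 ≠ p + 1)) := by
      by_cases h : SubT p M
      · obtain ⟨a0, ha0⟩ : ∃ a0, z0.2 a0 ≠ 0 := by
          by_contra h2
          push Not at h2
          exact hz02 (funext h2)
        exact ⟨z0, hz0, a0, ha0, Or.inl h⟩
      · unfold SubT InT at h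
        push Not at h
        obtain ⟨z1, hz1, a0, h1, h2, h3⟩ := h
        exact ⟨z1, hz1, a0, h3, Or.inr ⟨h1, h2⟩⟩
    obtain ⟨c, hc⟩ : ∃ c : Fin (k+1), c ∉ ({a0, a0 - 1, p} : Finset (Fin (k+1))) := by
      by_contra h
      push Not at h
      have h1 : (Finset.univ : Finset (Fin (k+1))) ⊆ {a0, a0 - 1, p} := fun x _ => h x
      have h2 := Finset.card_le_card h1
      have h3 : ({a0, a0 - 1, p} : Finset (Fin (k+1))).card ≤ 3 := Finset.card_le_three
      simp at h2
      omega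
    simp only [Finset.mem_insert, Finset.mem_singleton, not_or] at hc
    obtain ⟨hc1, hc2, hc3⟩ := hc
    have hc1' : a0 ≠ c := fun h => hc1 h.symm
    have hc2' : a0 ≠ c + 1 := fun h => hc2 (by rw [h]; simp)
    have hcM : ¬ SubT c M := fun h => hza (h z1 hz1 a0 hc1' hc2')
    obtain ⟨hE, w, v, z, hz, hwk, hw, hv, hr⟩ := rungs hk hM hcM hya hyM
    have hEp : ∀ i, 1 ≤ i → i < k → ¬ (E p (a i) ∧ E p (b i)) := by
      rintro i h1 h2 ⟨h3, h4⟩
      exact hp (fun t => hH i h1 h2 (mem_inf.2 ⟨mem_sup_left (h3 t), mem_sup_left (h4 t)⟩))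
    have hrq : ∀ i, 1 ≤ i → i ≤ k → (w i).2 - (v i).2 = z.2 := by
      intro i h1 h2
      have := congrArg Prod.snd (hr i h1 h2)
      simpa using this
    have hwd : ∀ i, 1 ≤ i → i ≤ k → InT p ((w 1).2 - (w i).2) := by
      intro i h1
      induction i, h1 using Nat.le_induction with
      | base => intro _; rw [sub_self]; exact InT.zero _
      | succ i h1 ih =>
        intro h2
        have ih' := ih (by omega)
        obtain ⟨α, hα⟩ := step hk (c := c) (D := th c (th c (w i) - th c (w (i+1))))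
          (hw i h1 (by omega)) (hw (i+1) (by omega) h2) (hv i h1 (by omega))
          (hv (i+1) (by omega) h2) (by rw [th_th])
          (by rw [th_th, diff hr i (i+1) h1 (by omega) (by omega) h2]) (hE i h1 (by omega))
        have h3 := hpH _ (hH i h1 (by omega) hα)
        have e : (w 1).2 - (w (i+1)).2 = ((w 1).2 - (w i).2) + ((w i).2 - (w (i+1)).2) := by abel
        rw [e]
        refine ih'.add ?_
        simpa using h3
    have hvd : ∀ i, 1 ≤ i → i ≤ k → InT p ((v 1).2 - (v i).2) := by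
      intro i h1 h2
      have e1 := hrq 1 le_rfl (by omega)
      have e2 := hrq i h1 h2
      have e : (v 1).2 - (v i).2 = (w 1).2 - (w i).2 := by
        rw [sub_eq_iff_eq_add] at e1 e2
        rw [e1, e2]; abel
      rw [e]; exact hwd i h1 h2
    have hξ : InT p z.2 ∨ (a0 ≠ p ∧ a0 ≠ p + 1) := by
      rcases hMa with h | h
      · left; exact h z hz
      · right; exact h
    have badA := bad_absurd hk (a := a) (b := b) (M := M) w v z.2 hv hw hrq
      (fun i h1 h2 => hM i h1 h2 hz1) hza hc1' hc2' hc3 hξ hEp hwd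
    have badB := bad_absurd hk (a := b) (b := a) (M := M) v w (-z.2) hw hv
      (fun i h1 h2 => by rw [← hrq i h1 h2]; abel)
      (fun i h1 h2 => by rw [sup_comm]; exact hM i h1 h2 hz1) hza hc1' hc2' hc3
      (by rcases hξ with h | h
          · left; exact h.neg
          · right; exact h)
      (fun i h1 h2 h => hEp i h1 h2 ⟨h.2, h.1⟩) hvd
    rw [← hwk]
    exact gg hk w v (th c z) hw hv hr hH
      (fun i h1 h2 => badA i (i+1) h1 h2 (by omega) (by omega))
      (fun i h1 h2 => badB i (i+1) h1 h2 (by omega) (by omega))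
      (badA 1 k le_rfl (by omega) (by omega) le_rfl)
      (badB 1 k le_rfl (by omega) (by omega) le_rfl)
      (Or.inl ⟨p, hc3, hpH⟩)
  · -- `H` is full, or `k = 2`
    obtain ⟨a0, hza⟩ : ∃ a0, z0.2 a0 ≠ 0 := by
      by_contra h2
      push Not at h2
      exact hz02 (funext h2)
    have hcM : ¬ SubT (a0 + 1) M := fun h => hza (h z0 hz0 a0 (fin_one_ne hk a0) (fin_two_ne hk a0))
    obtain ⟨hE, w, v, z, hz, hwk, hw, hv, hr⟩ := rungs hk hM hcM hya hyM
    set c := a0 + 1 with hcdef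
    obtain ⟨α, hα, hα'⟩ := closing hk (c := c) (D := th c (th c (w 1) - th c (w k)))
      (hw 1 le_rfl (by omega)) (hw k (by omega) le_rfl) (hv 1 le_rfl (by omega))
      (hv k (by omega) le_rfl) (by rw [th_th])
      (by rw [th_th, diff hr 1 k le_rfl (by omega) (by omega) le_rfl]) (hE 1 le_rfl (by omega))
    rw [← hwk]
    apply hα' _ le_sup_left
    apply mem_sup_right
    refine mem_inf.2 ⟨?_, (mem_inf.1 hα).2⟩
    by_cases hk2 : k = 2
    · subst hk2
      exact hH 1 le_rfl (by omega) hα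
    · have hfull : ∀ p, E p H := by
        intro p
        by_contra h
        exact hcase ⟨⟨p, h⟩, by omega⟩
      have hq : ∀ i, 1 ≤ i → i ≤ k → ∃ x ∈ H.carrier, x.2 = (w 1).2 - (w i).2 := by
        intro i h1
        induction i, h1 using Nat.le_induction with
        | base => intro _; exact ⟨0, H.zero', by simp⟩
        | succ i h1 ih =>
          intro h2
          obtain ⟨x, hx, hx2⟩ := ih (by omega)
          obtain ⟨α, hα⟩ := step hk (c := c) (D := th c (th c (w i) - th c (w (i+1))))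
            (hw i h1 (by omega)) (hw (i+1) (by omega) h2) (hv i h1 (by omega))
            (hv (i+1) (by omega) h2) (by rw [th_th])
            (by rw [th_th, diff hr i (i+1) h1 (by omega) (by omega) h2]) (hE i h1 (by omega))
          obtain ⟨x', hx', hx2'⟩ := qadd hk hx (hH i h1 (by omega) hα)
          refine ⟨x', hx', ?_⟩
          rw [hx2', hx2]
          change _ + ((w i).2 - (w (i+1)).2) = _
          abel
      obtain ⟨x, hx, hx2⟩ := hq k (by omega) le_rfl
      refine mem_of_full hk hfull hx ?_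
      rw [hx2]; rfl

/-- `D_k` holds in `Cl k` -/
theorem law (hk : 2 ≤ k) (a b : ℕ → Cl k) (h : (Finset.Icc 1 (k - 1)).Nonempty) :
    a k ⊓ ((Finset.Icc 1 (k - 1)).inf' h (fun i => a i ⊔ b i) ⊔ b k) ≤
      a 1 ⊔ ((Finset.Icc 1 (k - 1)).sup' h
        (fun i => (a i ⊔ a (i + 1)) ⊓ (b i ⊔ b (i + 1))) ⊓ (b 1 ⊔ b k)) := by
  intro y hy
  obtain ⟨hya, hyM⟩ := mem_inf.1 hy
  have hM : ∀ i, 1 ≤ i → i < k →
      (Finset.Icc 1 (k - 1)).inf' h (fun i => a i ⊔ b i) ≤ a i ⊔ b i := by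
    intro i h1 h2
    exact Finset.inf'_le (f := fun i => a i ⊔ b i) (Finset.mem_Icc.2 ⟨h1, by omega⟩)
  have hH : ∀ i, 1 ≤ i → i < k → (a i ⊔ a (i+1)) ⊓ (b i ⊔ b (i+1)) ≤
      (Finset.Icc 1 (k - 1)).sup' h (fun i => (a i ⊔ a (i + 1)) ⊓ (b i ⊔ b (i + 1))) := by
    intro i h1 h2
    exact Finset.le_sup' (f := fun i => (a i ⊔ a (i + 1)) ⊓ (b i ⊔ b (i + 1)))
      (Finset.mem_Icc.2 ⟨h1, by omega⟩)
  by_cases hlow : ∀ z ∈ ((Finset.Icc 1 (k - 1)).inf' h (fun i => a i ⊔ b i)).carrier, z.2 = 0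
  · exact low_case hk hM hH hlow hya hyM
  · push Not at hlow
    obtain ⟨z0, hz0, hz02⟩ := hlow
    exact high_case hk hM hH hz0 hz02 hya hyM

end Pool.Agent.H397HA
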