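import Pool.Agent.H397HA.Lat

set_option autoImplicit false

namespace Pool.Agent.H397HA

variable {k : ℕ}

/-- gauge chart -/
noncomputable def th (c : Fin (k+1)) (x : V k) : V k := (s c x.2 • x.1, x.2)

@[simp] theorem th_snd (c : Fin (k+1)) (x : V k) : (th c x).2 = x.2 := rfl

theorem th_th (c : Fin (k+1)) (x : V k) : th c (th c x) = x := by
  have := s_mul_self c x.2
  unfold th
  simp only [smul_smul, this, one_smul]

theorem op_eq (c : Fin (k+1)) (x y : V k) : op c x y = th c (th c x + th c y) := rfl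

theorem th_op (c : Fin (k+1)) (x y : V k) : th c (op c x y) = th c x + th c y := by
  rw [op_eq, th_th]

theorem th_neg (c : Fin (k+1)) (x : V k) : th c (-x) = -th c x := by
  unfold th
  simp

theorem th_inj {c : Fin (k+1)} {x y : V k} (h : th c x = th c y) : x = y := by
  rw [← th_th c x, h, th_th]

theorem th_zero (c : Fin (k+1)) : th c (0 : V k) = 0 := by
  unfold th; simp

theorem neg_op (c : Fin (k+1)) (x y : V k) : -op c x y = op c (-x) (-y) := by
  apply th_inj (c := c)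
  rw [th_neg, th_op, th_op, th_neg, th_neg]; abel

/-- the join inside one edge block -/
noncomputable def chartSum (hk : 2 ≤ k) {j c1 : Fin (k+1)} (hc : c1 ≠ j) {X Y : Cl k}
    (hX : SubT j X) (hY : SubT j Y) : Cl k where
  carrier := {p | ∃ x ∈ X.carrier, ∃ y ∈ Y.carrier, p = op c1 x y}
  zero' := ⟨0, X.zero', 0, Y.zero', by
    apply th_inj (c := c1); rw [th_op, th_zero, add_zero]⟩
  neg' := by
    rintro p ⟨x, hx, y, hy, rfl⟩
    exact ⟨-x, X.neg' x hx, -y, Y.neg' y hy, neg_op _ _ _⟩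
  J' := by
    rintro p ⟨x, hx, y, hy, rfl⟩ l hl t
    by_cases h : InT l x.2
    · have h2 : ¬ InT l y.2 := fun h2 => hl (h.add h2)
      exact ⟨0, X.zero', _, Y.J' y hy l h2 t, by simp [op]⟩
    · exact ⟨_, X.J' x hx l h t, 0, Y.zero', by simp [op]⟩
  add' := by
    have key : ∀ p p' : V k, (∃ x ∈ X.carrier, ∃ y ∈ Y.carrier, p = op c1 x y) →
        (∃ x ∈ X.carrier, ∃ y ∈ Y.carrier, p' = op c1 x y) →
        (∃ x ∈ X.carrier, ∃ y ∈ Y.carrier, op c1 p p' = op c1 x y) := by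
      rintro p p' ⟨x, hx, y, hy, rfl⟩ ⟨x', hx', y', hy', rfl⟩
      refine ⟨op c1 x x', X.add' c1 j hc x hx x' hx' (hX x hx) (hX x' hx'),
        op c1 y y', Y.add' c1 j hc y hy y' hy' (hY y hy) (hY y' hy'), ?_⟩
      apply th_inj (c := c1)
      simp only [th_op]; abel
    have kneg : ∀ p : V k, (∃ x ∈ X.carrier, ∃ y ∈ Y.carrier, p = op c1 x y) →
        (∃ x ∈ X.carrier, ∃ y ∈ Y.carrier, -p = op c1 x y) := by
      rintro p ⟨x, hx, y, hy, rfl⟩
      exact ⟨-x, X.neg' x hx, -y, Y.neg' y hy, neg_op _ _ _⟩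
    have kT : ∀ p : V k, (∃ x ∈ X.carrier, ∃ y ∈ Y.carrier, p = op c1 x y) → InT j p.2 := by
      rintro p ⟨x, hx, y, hy, rfl⟩
      exact (hX x hx).add (hY y hy)
    intro c l hcl p hp p' hp' h1 h2
    obtain ⟨η, hη, h⟩ := ratio hk hcl hc
    have h3 : ∀ q, (q = p.2 ∨ q = p'.2 ∨ q = p.2 + p'.2) → q ≠ 0 → s c q = η * s c1 q := by
      rintro q hq hq0
      apply h q _ _ hq0
      · rcases hq with rfl | rfl | rfl
        · exact h1
        · exact h2
        · exact h1.add h2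
      · rcases hq with rfl | rfl | rfl
        · exact kT p hp
        · exact kT p' hp'
        · exact (kT p hp).add (kT p' hp')
    rcases op_switch hη h3 with h4 | h4 | h4 | h4
    · rw [h4]; exact key _ _ hp hp'
    · rw [h4]; exact key _ _ (kneg _ hp) hp'
    · rw [h4]; exact key _ _ hp (kneg _ hp')
    · rw [h4]; exact kneg _ (key _ _ hp hp')
  up' := by
    rintro p ⟨x, hx, y, hy, rfl⟩ p' ⟨x', hx', y', hy', rfl⟩ h
    exact absurd ⟨(hX x hx).add (hY y hy), (hX x' hx').add (hY y' hy')⟩ (h j)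

/-- the full preimage of the sum of the `q`-levels -/
def qSum (hk : 2 ≤ k) (X Y : Cl k) : Cl k where
  carrier := {p | ∃ x ∈ X.carrier, ∃ y ∈ Y.carrier, p.2 = x.2 + y.2}
  zero' := ⟨0, X.zero', 0, Y.zero', by simp⟩
  neg' := by
    rintro p ⟨x, hx, y, hy, h⟩
    refine ⟨-x, X.neg' x hx, -y, Y.neg' y hy, ?_⟩
    simp only [Prod.snd_neg, h]; abel
  J' := by
    rintro p - l - t
    exact ⟨0, X.zero', 0, Y.zero', by simp⟩
  add' := by
    rintro c l - p ⟨x, hx, y, hy, h⟩ p' ⟨x', hx', y', hy', h'⟩ - -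
    obtain ⟨x'', hx'', e1⟩ := qadd hk hx hx'
    obtain ⟨y'', hy'', e2⟩ := qadd hk hy hy'
    refine ⟨x'', hx'', y'', hy'', ?_⟩
    rw [op_snd, h, h', e1, e2]; abel
  up' := by
    rintro p ⟨x, hx, y, hy, h⟩ p' ⟨x', hx', y', hy', h'⟩ - u
    obtain ⟨x'', hx'', e1⟩ := qadd hk hx hx'
    obtain ⟨y'', hy'', e2⟩ := qadd hk hy hy'
    refine ⟨x'', hx'', y'', hy'', ?_⟩
    simp only [h, h', e1, e2]; abel

theorem join_q (hk : 2 ≤ k) {X Y : Cl k} {p : V k} (hp : p ∈ (X ⊔ Y).carrier) :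
    ∃ x ∈ X.carrier, ∃ y ∈ Y.carrier, p.2 = x.2 + y.2 := by
  have h : X ⊔ Y ≤ qSum hk X Y := by
    apply sup_le
    · exact fun x hx => ⟨x, hx, 0, Y.zero', by simp⟩
    · exact fun x hx => ⟨0, X.zero', x, hx, by simp⟩
  exact h hp

theorem join_chart (hk : 2 ≤ k) {j c : Fin (k+1)} (hc : c ≠ j) {X Y : Cl k}
    (hX : SubT j X) (hY : SubT j Y) {p : V k} (hp : p ∈ (X ⊔ Y).carrier) :
    ∃ x ∈ X.carrier, ∃ y ∈ Y.carrier, p = op c x y := by
  have h : X ⊔ Y ≤ chartSum hk hc hX hY := by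
    apply sup_le
    · refine fun x hx => ⟨x, hx, 0, Y.zero', ?_⟩
      apply th_inj (c := c); rw [th_op, th_zero, add_zero]
    · refine fun x hx => ⟨0, X.zero', x, hx, ?_⟩
      apply th_inj (c := c); rw [th_op, th_zero, zero_add]
  exact h hp

theorem SubT.sup (hk : 2 ≤ k) {j : Fin (k+1)} {X Y : Cl k}
    (hX : SubT j X) (hY : SubT j Y) : SubT j (X ⊔ Y) := by
  intro p hp
  obtain ⟨x, hx, y, hy, h⟩ := join_q hk hp
  rw [h]; exact (hX x hx).add (hY y hy)

theorem join_none (hk : 2 ≤ k) (c : Fin (k+1)) {X Y : Cl k}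
    (h : ∀ j, ¬ (SubT j X ∧ SubT j Y)) {p : V k} (hp : p ∈ (X ⊔ Y).carrier) :
    ∃ x ∈ X.carrier, ∃ y ∈ Y.carrier, p = op c x y := by
  classical
  obtain ⟨x, hx, y, hy, hq⟩ := join_q hk hp
  have hE : ∀ j, ¬ E j X → E j Y := fun j h1 => by
    apply E_of_not
    intro h2
    apply h j ⟨?_, h2⟩
    by_contra h3
    exact h1 (E_of_not h3)
  set t : W k := s c p.2 • p.1 - s c x.2 • x.1 - s c y.2 • y.1 with ht
  have hA : (((fun j => if E j X then s c x.2 * t j else 0 : W k), 0) : V k) ∈ X.carrier := by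
    apply low_of hk
    intro j hj
    by_contra h1
    simp [h1] at hj
  have hB : (((fun j => if E j X then 0 else s c y.2 * t j : W k), 0) : V k) ∈ Y.carrier := by
    apply low_of hk
    intro j hj
    apply hE
    intro h1
    simp [h1] at hj
  refine ⟨_, shift hk hx hA, _, shift hk hy hB, ?_⟩
  have e1 := s_mul_self c p.2
  have e2 := s_mul_self c x.2
  have e3 := s_mul_self c y.2
  refine Prod.ext ?_ ?_
  · funext j
    rw [op_fst]
    simp only [← hq, Pi.smul_apply, Pi.add_apply, smul_eq_mul]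
    have ht' : t j = s c p.2 * p.1 j - s c x.2 * x.1 j - s c y.2 * y.1 j := by
      rw [ht]; simp
    by_cases h1 : E j X
    · simp only [h1, if_true]
      linear_combination (-(p.1 j)) * e1 - s c p.2 * t j * e2 + (-(s c p.2)) * ht'
    · simp only [h1, if_false]
      linear_combination (-(p.1 j)) * e1 - s c p.2 * t j * e3 + (-(s c p.2)) * ht'
  · rw [op_snd]; exact hq

/-- lattice level badness -/
def LBad (c : Fin (k+1)) (X Y : Cl k) : Prop :=
  SubT c X ∧ SubT c Y ∧ ∀ j, SubT j X → SubT j Y → j = c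

theorem join_dec (hk : 2 ≤ k) {c : Fin (k+1)} {X Y : Cl k}
    (h : ¬ LBad c X Y) {p : V k} (hp : p ∈ (X ⊔ Y).carrier) :
    ∃ x ∈ X.carrier, ∃ y ∈ Y.carrier, p = op c x y := by
  by_cases h1 : ∃ j, c ≠ j ∧ SubT j X ∧ SubT j Y
  · obtain ⟨j, hj, h2, h3⟩ := h1
    exact join_chart hk hj h2 h3 hp
  · push Not at h1
    apply join_none hk c _ hp
    rintro j ⟨h2, h3⟩
    by_cases h4 : c = j
    · subst h4
      apply h
      refine ⟨h2, h3, fun j' h5 h6 => ?_⟩
      by_contra h7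
      exact h1 j' (fun h => h7 h.symm) h5 h6
    · exact h1 j h4 h2 h3

theorem join_ex (hk : 2 ≤ k) {X Y : Cl k} {p : V k} (hp : p ∈ (X ⊔ Y).carrier) :
    ∃ c, ∃ x ∈ X.carrier, ∃ y ∈ Y.carrier, p = op c x y := by
  by_cases h : ∃ j, SubT j X ∧ SubT j Y
  · obtain ⟨j, h1, h2⟩ := h
    obtain ⟨c, hc⟩ := exists_ne hk j
    exact ⟨c, join_chart hk hc h1 h2 hp⟩
  · push Not at h
    exact ⟨0, join_none hk 0 (fun j hj => h j hj.1 hj.2) hp⟩

theorem join_low (hk : 2 ≤ k) {X Y : Cl k} {z : V k} (hz : z ∈ (X ⊔ Y).carrier)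
    (hz2 : z.2 = 0) : ∃ w ∈ X.carrier, ∃ v ∈ Y.carrier, w.2 = v.2 ∧ w.1 = v.1 + z.1 := by
  obtain ⟨c, x, hx, y, hy, rfl⟩ := join_ex hk hz
  rw [op_snd] at hz2
  have hy2 : y.2 = -x.2 := by
    rw [eq_neg_iff_add_eq_zero, add_comm]; exact hz2
  refine ⟨s c x.2 • x, sgn_smul_mem hx (s_or _ _), -(s c x.2 • y),
    Y.neg' _ (sgn_smul_mem hy (s_or _ _)), ?_, ?_⟩
  · simp [hy2]
  · rw [op_fst, hz2, hy2]
    simp

theorem sum_sub (hk : 2 ≤ k) {S : Cl k} {c : Fin (k+1)} {x y p : V k} (hx : x ∈ S.carrier)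
    (hy : y ∈ S.carrier) (h : ¬ Bad c x.2 y.2 ∨ E c S) (hp : th c p = th c x - th c y) :
    p ∈ S.carrier := by
  have h1 : p = op c x (-y) := by
    apply th_inj (c := c); rw [th_op, th_neg, hp]; abel
  rw [h1]
  apply sum_rule hk hx (S.neg' y hy)
  rcases h with h | h
  · left
    rintro ⟨h2, h3, h4⟩
    apply h
    refine ⟨h2, by simpa [InT.neg_iff] using h3, fun j h5 h6 => h4 j h5 ?_⟩
    simpa [InT.neg_iff] using h6
  · right; exact h

end Pool.Agent.H397HA
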