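import Pool.Agent.H397HA.Basic

set_option autoImplicit false

namespace Pool.Agent.H397HA

variable {k : ℕ}

/-- closed point sets -/
structure Cl (k : ℕ) where
  /-- the points -/
  carrier : Set (V k)
  zero' : (0 : V k) ∈ carrier
  neg' : ∀ x ∈ carrier, -x ∈ carrier
  J' : ∀ x ∈ carrier, ∀ j, ¬ InT j x.2 → ∀ t : ZMod 3, ((Pi.single j t, 0) : V k) ∈ carrier
  add' : ∀ c j, c ≠ j → ∀ x ∈ carrier, ∀ y ∈ carrier, InT j x.2 → InT j y.2 →
    op c x y ∈ carrier
  up' : ∀ x ∈ carrier, ∀ y ∈ carrier, (∀ j, ¬ (InT j x.2 ∧ InT j y.2)) →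
    ∀ u, ((u, x.2 + y.2) : V k) ∈ carrier

theorem Cl.ext' {A B : Cl k} (h : A.carrier = B.carrier) : A = B := by
  cases A; cases B; congr

instance : PartialOrder (Cl k) := PartialOrder.lift Cl.carrier (fun _ _ h => Cl.ext' h)

theorem le_iff {A B : Cl k} : A ≤ B ↔ A.carrier ⊆ B.carrier := Iff.rfl

/-- intersection of a family -/
def interS (P : Cl k → Prop) : Cl k where
  carrier := {x | ∀ C, P C → x ∈ C.carrier}
  zero' := fun C _ => C.zero'
  neg' := fun x hx C hC => C.neg' x (hx C hC)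
  J' := fun x hx j hj t C hC => C.J' x (hx C hC) j hj t
  add' := fun c j hc x hx y hy h1 h2 C hC => C.add' c j hc x (hx C hC) y (hy C hC) h1 h2
  up' := fun x hx y hy h u C hC => C.up' x (hx C hC) y (hy C hC) h u

instance : Lattice (Cl k) where
  sup A B := interS (fun C => A ≤ C ∧ B ≤ C)
  inf A B := interS (fun C => C = A ∨ C = B)
  le_sup_left A B := fun x hx C hC => hC.1 hx
  le_sup_right A B := fun x hx C hC => hC.2 hx
  sup_le A B C h1 h2 := fun x hx => hx C ⟨h1, h2⟩
  inf_le_left A B := fun x hx => hx A (Or.inl rfl)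
  inf_le_right A B := fun x hx => hx B (Or.inr rfl)
  le_inf A B C h1 h2 := fun x hx D hD => by
    rcases hD with rfl | rfl
    · exact h1 hx
    · exact h2 hx

theorem mem_inf {A B : Cl k} {x : V k} : x ∈ (A ⊓ B).carrier ↔ x ∈ A.carrier ∧ x ∈ B.carrier :=
  ⟨fun h => ⟨h A (Or.inl rfl), h B (Or.inr rfl)⟩, fun h C hC => by
    rcases hC with rfl | rfl
    · exact h.1
    · exact h.2⟩

theorem mem_sup_left {A B : Cl k} {x : V k} (h : x ∈ A.carrier) : x ∈ (A ⊔ B).carrier :=
  (le_sup_left : A ≤ A ⊔ B) h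
theorem mem_sup_right {A B : Cl k} {x : V k} (h : x ∈ B.carrier) : x ∈ (A ⊔ B).carrier :=
  (le_sup_right : B ≤ A ⊔ B) h

/-- the edge vector `e_c` (all its multiples) lies in `S` -/
def E (c : Fin (k+1)) (S : Cl k) : Prop := ∀ t : ZMod 3, ((Pi.single c t, 0) : V k) ∈ S.carrier

/-- `S` lies in the edge block `T_j` -/
def SubT (j : Fin (k+1)) (S : Cl k) : Prop := ∀ x ∈ S.carrier, InT j x.2

theorem E_of_not {S : Cl k} {j : Fin (k+1)} (h : ¬ SubT j S) : E j S := by
  unfold SubT at h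
  push Not at h
  obtain ⟨x, hx, hx'⟩ := h
  exact fun t => S.J' x hx j hx' t

theorem E.mono {A B : Cl k} {j : Fin (k+1)} (h : E j A) (hAB : A ≤ B) : E j B :=
  fun t => hAB (h t)

theorem exists_ne (hk : 2 ≤ k) (j : Fin (k+1)) : ∃ c : Fin (k+1), c ≠ j := by
  by_cases h : j = 0
  · refine ⟨Fin.last k, fun h' => ?_⟩
    rw [h] at h'
    have := congrArg Fin.val h'; simp at this; omega
  · exact ⟨0, fun h' => h h'.symm⟩

theorem op_low (c : Fin (k+1)) (u u' : W k) : op c (u, 0) (u', 0) = (u + u', 0) := by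
  simp [op]

theorem low_add (hk : 2 ≤ k) {S : Cl k} {u u' : W k} (h : ((u, 0) : V k) ∈ S.carrier)
    (h' : ((u', 0) : V k) ∈ S.carrier) : ((u + u', 0) : V k) ∈ S.carrier := by
  obtain ⟨c, hc⟩ := exists_ne hk 0
  rw [← op_low c]
  exact S.add' c 0 hc _ h _ h' (InT.zero _) (InT.zero _)

/-- the lower part -/
def low (hk : 2 ≤ k) (S : Cl k) : AddSubgroup (W k) where
  carrier := {u | ((u, 0) : V k) ∈ S.carrier}
  zero_mem' := S.zero'
  add_mem' := fun h h' => low_add hk h h'
  neg_mem' := fun {u} h => by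
    have := S.neg' _ h
    simpa using this

theorem low_of (hk : 2 ≤ k) {S : Cl k} {u : W k} (h : ∀ j, u j ≠ 0 → E j S) :
    ((u, 0) : V k) ∈ S.carrier := by
  have : u ∈ low hk S := by
    rw [← Finset.univ_sum_single u]
    apply AddSubgroup.sum_mem
    intro j _
    by_cases hj : u j = 0
    · rw [hj]; simp
    · exact h j hj (u j)
  exact this

theorem sgn_smul_mem {S : Cl k} {x : V k} (hx : x ∈ S.carrier) {σ : ZMod 3}
    (hσ : σ = 1 ∨ σ = -1) : σ • x ∈ S.carrier := by
  rcases hσ with rfl | rfl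
  · simpa using hx
  · simpa using S.neg' x hx

theorem shift (hk : 2 ≤ k) {S : Cl k} {x : V k} (hx : x ∈ S.carrier) {a : W k}
    (ha : ((a, 0) : V k) ∈ S.carrier) : ((x.1 + a, x.2) : V k) ∈ S.carrier := by
  by_cases h : ∃ j, InT j x.2
  · obtain ⟨j, hj⟩ := h
    obtain ⟨c, hc⟩ := exists_ne hk j
    have h1 : ((s c x.2 • a, 0) : V k) ∈ S.carrier := by
      have := sgn_smul_mem ha (s_or c x.2)
      simpa using this
    have h2 := S.add' c j hc x hx _ h1 hj (InT.zero _)
    have h3 : op c x (s c x.2 • a, 0) = (x.1 + a, x.2) := by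
      have := s_mul_self c x.2
      simp only [op, add_zero, s_zero, one_smul, Prod.mk.injEq, and_true]
      funext i
      simp only [Pi.smul_apply, Pi.add_apply, smul_eq_mul]
      linear_combination (x.1 i + a i) * this
    rwa [h3] at h2
  · push Not at h
    have := S.up' x hx 0 S.zero' (fun j hj => h j hj.1) (x.1 + a)
    simpa using this

theorem shift' (hk : 2 ≤ k) {S : Cl k} {x y : V k} (hx : x ∈ S.carrier) (h2 : y.2 = x.2)
    (h : ∀ j, y.1 j ≠ x.1 j → E j S) : y ∈ S.carrier := by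
  have h3 : ((y.1 - x.1, 0) : V k) ∈ S.carrier := by
    apply low_of hk
    intro j hj
    apply h
    intro h4
    apply hj
    simp [h4]
  have h4 := shift hk hx h3
  have h5 : ((x.1 + (y.1 - x.1), x.2) : V k) = y := by
    rw [← h2]; simp
  rwa [h5] at h4

/-- `q`-level additivity -/
theorem qadd (hk : 2 ≤ k) {S : Cl k} {x y : V k} (hx : x ∈ S.carrier) (hy : y ∈ S.carrier) :
    ∃ p ∈ S.carrier, p.2 = x.2 + y.2 := by
  by_cases h : ∃ j, InT j x.2 ∧ InT j y.2
  · obtain ⟨j, hj⟩ := h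
    obtain ⟨c, hc⟩ := exists_ne hk j
    exact ⟨_, S.add' c j hc x hx y hy hj.1 hj.2, rfl⟩
  · push Not at h
    exact ⟨_, S.up' x hx y hy (fun j hj => h j hj.1 hj.2) 0, rfl⟩

theorem mem_of_full (hk : 2 ≤ k) {S : Cl k} (hS : ∀ j, E j S) {x y : V k} (hx : x ∈ S.carrier)
    (h2 : y.2 = x.2) : y ∈ S.carrier :=
  shift' hk hx h2 (fun j _ => hS j)

/-- a pair is bad for the cut `c` if `T_c` is its only common edge block -/
def Bad (c : Fin (k+1)) (q q' : W k) : Prop :=
  InT c q ∧ InT c q' ∧ ∀ j, InT j q → InT j q' → j = c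

theorem Bad.unique {c c' : Fin (k+1)} {q q' : W k} (h : Bad c q q') (h' : Bad c' q q') :
    c = c' := h'.2.2 c h.1 h.2.1

/-- sum rule -/
theorem sum_rule (hk : 2 ≤ k) {S : Cl k} {c : Fin (k+1)} {x y : V k} (hx : x ∈ S.carrier)
    (hy : y ∈ S.carrier) (h : ¬ Bad c x.2 y.2 ∨ E c S) : op c x y ∈ S.carrier := by
  by_cases h1 : ∃ j, c ≠ j ∧ InT j x.2 ∧ InT j y.2
  · obtain ⟨j, hj, h2, h3⟩ := h1
    exact S.add' c j hj x hx y hy h2 h3
  · push Not at h1
    have hE : ∀ j, c ≠ j → E j S := by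
      intro j hj t
      by_cases h2 : InT j x.2
      · exact S.J' y hy j (h1 j hj h2) t
      · exact S.J' x hx j h2 t
    by_cases h2 : E c S
    · obtain ⟨p, hp, hp2⟩ := qadd hk hx hy
      apply mem_of_full hk _ hp
      · rw [hp2]; rfl
      · intro j
        by_cases h3 : c = j
        · subst h3; exact h2
        · exact hE j h3
    · have h3 : ¬ Bad c x.2 y.2 := by tauto
      have h4 : ∀ j, ¬ (InT j x.2 ∧ InT j y.2) := by
        intro j hj
        by_cases h5 : c = j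
        · subst h5
          apply h3
          refine ⟨hj.1, hj.2, fun j' h6 h7 => ?_⟩
          by_contra h8
          exact h1 j' (fun h => h8 h.symm) h6 h7
        · exact h1 j h5 hj.1 hj.2
      exact S.up' x hx y hy h4 _

/-- correction lemma: the sum lies in `S` up to a multiple of `e_c` -/
theorem corr (hk : 2 ≤ k) {S : Cl k} (c : Fin (k+1)) {x y : V k} (hx : x ∈ S.carrier)
    (hy : y ∈ S.carrier) :
    ∃ α : ZMod 3, (((op c x y).1 + Pi.single c α, x.2 + y.2) : V k) ∈ S.carrier := by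
  by_cases hb : Bad c x.2 y.2
  · obtain ⟨c', hc'⟩ := exists_ne hk c
    have h1 := S.add' c' c hc' x hx y hy hb.1 hb.2.1
    have hE : ∀ j, j ≠ c → E j S := by
      intro j hj t
      by_cases h2 : InT j x.2
      · exact S.J' y hy j (fun h3 => hj (hb.2.2 j h2 h3)) t
      · exact S.J' x hx j h2 t
    refine ⟨(op c' x y).1 c - (op c x y).1 c, ?_⟩
    refine shift' hk h1 ?_ ?_
    · rfl
    · intro j hj
      by_cases h4 : j = c
      · subst h4; simp at hj
      · exact hE j h4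
  · refine ⟨0, ?_⟩
    have h5 := sum_rule hk hx hy (Or.inl hb)
    have h6 : (((op c x y).1 + Pi.single c 0, x.2 + y.2) : V k) = op c x y := by
      rw [Pi.single_zero, add_zero]; rfl
    rw [h6]; exact h5

end Pool.Agent.H397HA
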