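import Pool.Agent.H397HA.Join

set_option autoImplicit false

namespace Pool.Agent.H397HA

variable {k : ℕ}

theorem InT.sub {j : Fin (k+1)} {q q' : W k} (h : InT j q) (h' : InT j q') : InT j (q - q') := by
  rw [sub_eq_add_neg]; exact h.add h'.neg

theorem SubT_of_not {S : Cl k} {j : Fin (k+1)} (h : ¬ E j S) : SubT j S := by
  by_contra h2; exact h (E_of_not h2)

/-- The linear argument, in the gauge with cut `c`. -/
theorem gg (hk : 2 ≤ k) {a b : ℕ → Cl k} {H : Cl k} {c : Fin (k+1)} (w v : ℕ → V k) (ξ : V k)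
    (hw : ∀ i, 1 ≤ i → i ≤ k → w i ∈ (a i).carrier)
    (hv : ∀ i, 1 ≤ i → i ≤ k → v i ∈ (b i).carrier)
    (hr : ∀ i, 1 ≤ i → i ≤ k → th c (w i) - th c (v i) = ξ)
    (hH : ∀ i, 1 ≤ i → i < k → (a i ⊔ a (i+1)) ⊓ (b i ⊔ b (i+1)) ≤ H)
    (hA : ∀ i, 1 ≤ i → i < k → ¬ Bad c (w i).2 (w (i+1)).2 ∨ E c (a i))
    (hB : ∀ i, 1 ≤ i → i < k → ¬ Bad c (v i).2 (v (i+1)).2 ∨ E c (b i))
    (hA1 : ¬ Bad c (w 1).2 (w k).2 ∨ E c (a 1))
    (hB1 : ¬ Bad c (v 1).2 (v k).2 ∨ E c (b 1))
    (hHc : (∃ p, c ≠ p ∧ SubT p H) ∨ E c H) :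
    w k ∈ (a 1 ⊔ (H ⊓ (b 1 ⊔ b k))).carrier := by
  have hdiff : ∀ i i', 1 ≤ i → i ≤ k → 1 ≤ i' → i' ≤ k →
      th c (w i) - th c (w i') = th c (v i) - th c (v i') := by
    intro i i' h1 h2 h3 h4
    have e1 := hr i h1 h2
    have e2 := hr i' h3 h4
    rw [sub_eq_iff_eq_add] at e1 e2
    rw [e1, e2]; abel
  have hD : ∀ i, 1 ≤ i → i ≤ k → th c (th c (w 1) - th c (w i)) ∈ H.carrier := by
    intro i h1
    induction i, h1 using Nat.le_induction with
    | base => intro _; rw [sub_self, th_zero]; exact H.zero'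
    | succ i h1 ih =>
      intro h2
      have ih' := ih (by omega)
      set d := th c (th c (w i) - th c (w (i+1))) with hd
      have hd' : th c d = th c (w i) - th c (w (i+1)) := by rw [hd, th_th]
      have hdA : d ∈ (a i ⊔ a (i+1)).carrier := by
        refine sum_sub hk (mem_sup_left (hw i h1 (by omega)))
          (mem_sup_right (hw (i+1) (by omega) h2)) ?_ hd'
        rcases hA i h1 (by omega) with h | h
        · left; exact h
        · right; exact h.mono le_sup_left
      have hdB : d ∈ (b i ⊔ b (i+1)).carrier := by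
        refine sum_sub hk (mem_sup_left (hv i h1 (by omega)))
          (mem_sup_right (hv (i+1) (by omega) h2)) ?_
          (by rw [hd', hdiff i (i+1) h1 (by omega) (by omega) h2])
        rcases hB i h1 (by omega) with h | h
        · left; exact h
        · right; exact h.mono le_sup_left
      have hdH : d ∈ H.carrier := hH i h1 (by omega) (mem_inf.2 ⟨hdA, hdB⟩)
      have e : th c (th c (w 1) - th c (w (i+1))) = op c (th c (th c (w 1) - th c (w i))) d := by
        apply th_inj (c := c)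
        rw [th_op, th_th, th_th, hd']; abel
      rw [e]
      apply sum_rule hk ih' hdH
      rcases hHc with ⟨p, hp, hpH⟩ | h
      · left
        intro hb
        exact hp (hb.2.2 p (hpH _ ih') (hpH _ hdH)).symm
      · right; exact h
  set D := th c (th c (w 1) - th c (w k)) with hDdef
  have hDth : th c D = th c (w 1) - th c (w k) := by rw [hDdef, th_th]
  have hDH : D ∈ H.carrier := hD k (by omega) le_rfl
  have hDB : D ∈ (b 1 ⊔ b k).carrier := by
    refine sum_sub hk (mem_sup_left (hv 1 le_rfl (by omega)))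
      (mem_sup_right (hv k (by omega) le_rfl)) ?_
      (by rw [hDth, hdiff 1 k le_rfl (by omega) (by omega) le_rfl])
    rcases hB1 with h | h
    · left; exact h
    · right; exact h.mono le_sup_left
  have hDS : D ∈ (a 1 ⊔ (H ⊓ (b 1 ⊔ b k))).carrier := mem_sup_right (mem_inf.2 ⟨hDH, hDB⟩)
  refine sum_sub hk (mem_sup_left (hw 1 le_rfl (by omega))) hDS ?_ (by rw [hDth]; abel : _ = _ - _)
  rcases hA1 with h | h
  · left
    rintro ⟨h1, h2, h3⟩
    apply h
    have e : D.2 = (w 1).2 - (w k).2 := by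
      have := congrArg Prod.snd hDth
      simpa using this
    have e' : (w k).2 = (w 1).2 - D.2 := by rw [e]; abel
    refine ⟨h1, by rw [e']; exact h1.sub h2, fun j h4 h5 => h3 j h4 ?_⟩
    rw [e]; exact h4.sub h5
  · right; exact h.mono le_sup_left

theorem InT_smul {j : Fin (k+1)} {q : W k} {σ : ZMod 3} (hσ : σ = 1 ∨ σ = -1) :
    InT j (σ • q) ↔ InT j q := by
  rcases hσ with rfl | rfl
  · simp
  · rw [neg_one_smul]; exact InT.neg_iff

theorem Bad_smul {c : Fin (k+1)} {q q' : W k} {σ τ : ZMod 3} (hσ : σ = 1 ∨ σ = -1)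
    (hτ : τ = 1 ∨ τ = -1) : Bad c (σ • q) (τ • q') ↔ Bad c q q' := by
  unfold Bad
  simp only [InT_smul hσ, InT_smul hτ]

theorem s_smul {c : Fin (k+1)} {q : W k} {σ : ZMod 3} (hσ : σ = 1 ∨ σ = -1) :
    s c (σ • q) = s c q := by
  rcases hσ with rfl | rfl
  · simp
  · rw [neg_one_smul, s_neg]

theorem th_smul_s (c : Fin (k+1)) (x : V k) : th c (s c x.2 • x) = (x.1, s c x.2 • x.2) := by
  have h := s_mul_self c x.2
  unfold th
  simp only [Prod.smul_snd, Prod.smul_fst, s_smul (s_or c x.2), smul_smul, h, one_smul]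

/-- choosing a cut that avoids finitely many bad pairs -/
theorem exists_cut (q q' : ℕ → W k) : ∃ c : Fin (k+1), ∀ i, i < k → ¬ Bad c (q i) (q' i) := by
  classical
  let f : ℕ → Fin (k+1) := fun i => if h : ∃ c, Bad c (q i) (q' i) then h.choose else 0
  have hcard : ((Finset.range k).image f).card < (Finset.univ : Finset (Fin (k+1))).card := by
    calc _ ≤ (Finset.range k).card := Finset.card_image_le
      _ = k := Finset.card_range k
      _ < _ := by simp
  obtain ⟨c, -, hc⟩ := Finset.exists_mem_notMem_of_card_lt_card hcard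
  refine ⟨c, fun i hi hb => hc ?_⟩
  rw [Finset.mem_image]
  refine ⟨i, Finset.mem_range.2 hi, ?_⟩
  have h : ∃ c, Bad c (q i) (q' i) := ⟨c, hb⟩
  simp only [f, dif_pos h]
  exact h.choose_spec.unique hb

theorem low_case (hk : 2 ≤ k) {a b : ℕ → Cl k} {M H : Cl k}
    (hM : ∀ i, 1 ≤ i → i < k → M ≤ a i ⊔ b i)
    (hH : ∀ i, 1 ≤ i → i < k → (a i ⊔ a (i+1)) ⊓ (b i ⊔ b (i+1)) ≤ H)
    (hlow : ∀ z ∈ M.carrier, z.2 = 0) {y : V k} (hya : y ∈ (a k).carrier)
    (hyM : y ∈ (M ⊔ b k).carrier) : y ∈ (a 1 ⊔ (H ⊓ (b 1 ⊔ b k))).carrier := by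
  obtain ⟨c0, z, hz, v0, hv0, hy⟩ := join_ex hk hyM
  have hz2 := hlow z hz
  set ζ : W k := s c0 v0.2 • z.1 with hζ
  have hzM : ((ζ, 0) : V k) ∈ M.carrier := by
    have := sgn_smul_mem hz (s_or c0 v0.2)
    have e : s c0 v0.2 • z = (ζ, 0) := by
      ext1
      · rfl
      · simp [hz2]
    rwa [e] at this
  have hy2 : y.2 = v0.2 := by rw [hy, op_snd, hz2, zero_add]
  have hy1 : y.1 = v0.1 + ζ := by
    rw [hy, op_fst, hz2, zero_add, s_zero, one_smul, smul_add, smul_smul, s_mul_self, one_smul, hζ]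
    abel
  have hex : ∀ i, ∃ w v : V k, 1 ≤ i → i ≤ k →
      (w ∈ (a i).carrier ∧ v ∈ (b i).carrier ∧ w.2 = v.2 ∧ w.1 = v.1 + ζ ∧ (i = k → w = y)) := by
    intro i
    by_cases h1 : 1 ≤ i
    · by_cases h2 : i < k
      · obtain ⟨w, hw, v, hv, h3, h4⟩ := join_low hk (hM i h1 h2 hzM) rfl
        exact ⟨w, v, fun _ _ => ⟨hw, hv, h3, h4, fun h => absurd h (by omega)⟩⟩
      · by_cases h3 : i = k
        · subst h3
          exact ⟨y, v0, fun _ _ => ⟨hya, hv0, hy2, hy1, fun _ => rfl⟩⟩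
        · exact ⟨0, 0, fun _ h => absurd h (by omega)⟩
    · exact ⟨0, 0, fun h _ => absurd h h1⟩
  choose w v hwv using hex
  have hyk : w k = y := (hwv k (by omega) le_rfl).2.2.2.2 rfl
  -- the conclusion for a good cut
  have main : ∀ c : Fin (k+1), (∀ i, 1 ≤ i → i < k → ¬ Bad c (w i).2 (w (i+1)).2) →
      ¬ Bad c (w 1).2 (w k).2 → ((∃ p, c ≠ p ∧ SubT p H) ∨ E c H) →
      y ∈ (a 1 ⊔ (H ⊓ (b 1 ⊔ b k))).carrier := by
    intro c h1 h2 h3
    have key := gg hk (a := a) (b := b) (H := H) (c := c)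
      (fun i => s c (w i).2 • w i) (fun i => s c (v i).2 • v i) (ζ, 0)
      (fun i hi hi' => sgn_smul_mem (hwv i hi hi').1 (s_or _ _))
      (fun i hi hi' => sgn_smul_mem (hwv i hi hi').2.1 (s_or _ _))
      (fun i hi hi' => by
        obtain ⟨-, -, h5, h6, -⟩ := hwv i hi hi'
        rw [th_smul_s, th_smul_s, h5, h6]
        ext1
        · simp
        · simp)
      hH
      (fun i hi hi' => by
        left
        have := h1 i hi hi'
        simpa only [Prod.smul_snd, Bad_smul (s_or _ _) (s_or _ _)] using this)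
      (fun i hi hi' => by
        left
        have := h1 i hi hi'
        rw [(hwv i hi (by omega)).2.2.1, (hwv (i+1) (by omega) (by omega)).2.2.1] at this
        simpa only [Prod.smul_snd, Bad_smul (s_or _ _) (s_or _ _)] using this)
      (by
        left
        simpa only [Prod.smul_snd, Bad_smul (s_or _ _) (s_or _ _)] using h2)
      (by
        left
        rw [(hwv 1 le_rfl (by omega)).2.2.1, (hwv k (by omega) le_rfl).2.2.1] at h2
        simpa only [Prod.smul_snd, Bad_smul (s_or _ _) (s_or _ _)] using h2)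
      h3
    have key2 := sgn_smul_mem key (s_or c (w k).2)
    simp only [smul_smul, s_mul_self, one_smul, hyk] at key2
    exact key2
  by_cases hp : ∃ p, ¬ E p H
  · obtain ⟨p, hp⟩ := hp
    have hpH := SubT_of_not hp
    have hall : ∀ i, 1 ≤ i → i ≤ k → InT p (w i).2 := by
      intro i h1 h2
      by_contra h3
      obtain ⟨h4, h5, h6, -, -⟩ := hwv i h1 h2
      have e1 : E p (a i) := fun t => (a i).J' _ h4 p h3 t
      have e2 : E p (b i) := fun t => (b i).J' _ h5 p (by rw [← h6]; exact h3) t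
      apply hp
      by_cases h7 : i < k
      · exact fun t => hH i h1 h7 (mem_inf.2 ⟨mem_sup_left (e1 t), mem_sup_left (e2 t)⟩)
      · have h8 : i - 1 + 1 = i := by omega
        intro t
        apply hH (i-1) (by omega) (by omega)
        rw [h8]
        exact mem_inf.2 ⟨mem_sup_right (e1 t), mem_sup_right (e2 t)⟩
    obtain ⟨c, hc⟩ := exists_ne hk p
    refine main c ?_ ?_ (Or.inl ⟨p, hc, hpH⟩)
    · intro i h1 h2 hb
      exact hc (hb.2.2 p (hall i h1 (by omega)) (hall (i+1) (by omega) (by omega))).symm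
    · intro hb
      exact hc (hb.2.2 p (hall 1 le_rfl (by omega)) (hall k (by omega) le_rfl)).symm
  · push Not at hp
    obtain ⟨c, hc⟩ := exists_cut (k := k)
      (fun i => if i = 0 then (w 1).2 else (w i).2) (fun i => if i = 0 then (w k).2 else (w (i+1)).2)
    refine main c ?_ ?_ (Or.inr (hp c))
    · intro i h1 h2
      have := hc i h2
      simpa [show i ≠ 0 by omega] using this
    · have := hc 0 (by omega)
      simpa using this

end Pool.Agent.H397HA
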